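import Pool.Agent.Helper46.KSZ.St

/-!
# KSZ-E6: the explicit identity on the line of real part two
-/

set_option autoImplicit false
open Filter Topology MeasureTheory Complex
open scoped Classical

namespace Pool.Agent.Helper48.KSZ

open Pool.Agent.Helper10.QRH Pool.Agent.Helper69.QRH Pool.Agent.Helper46.KSZ
open Pool.Agent.Helper52.QRH Pool.Agent.Helper52.QRH.Expl

theorem e6_ne {T : ℝ} {M : Multiset ℂ} {Z : ℂ → ℂ} (hB : Box T M Z) {s : ℂ} (hs : 1 < s.re) :
    Z s ≠ 0 := by
  intro h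
  have h1 := hB.eq s
  rw [h, mul_zero] at h1
  have hs1 : s ≠ 1 := by
    rintro rfl
    simp at hs
  rw [EZ_eq hs1] at h1
  rcases mul_eq_zero.1 h1 with h2 | h2
  · exact hs1 (sub_eq_zero.1 h2)
  · exact riemannZeta_ne_zero_of_one_lt_re hs h2

theorem e6_logDeriv {T : ℝ} {M : Multiset ℂ} {Z : ℂ → ℂ} (hB : Box T M Z) {s : ℂ}
    (hs : 1 < s.re) :
    -logDeriv Z s = LSeries (fun n => (ArithmeticFunction.vonMangoldt n : ℂ)) s
        - 1 / (s - 1) + (M.map (fun ρ => 1 / (s - ρ))).sum := by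
  have hsM : ∀ ρ ∈ M, s ≠ ρ := by
    rintro ρ hρ rfl
    have := (hB.mem s hρ).2.2.1
    linarith
  have h1 : logDeriv EZ s = logDeriv (Qp M) s + logDeriv Z s := by
    have h2 : EZ = fun z => Qp M z * Z z := funext hB.eq
    rw [h2, logDeriv_mul s (Qp_ne_zero M s hsM) (e6_ne hB hs)
      (Qp_differentiable M s) (hB.diff s)]
  rw [logDeriv_EZ hs, logDeriv_Qp M s hsM] at h1
  linear_combination h1

theorem lineTwo (hK : KFacts) (hG : GBound) : LineTwo := by
  intro T M Z hT hB lam u hl hl1 hu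
  obtain ⟨C, hC, hGb⟩ := hG
  obtain ⟨-, hG2⟩ := hGb T M Z hT hB
  have hs1 : ∀ t : ℝ, 1 < (((2 : ℝ) : ℂ) + t * Complex.I).re := by
    intro t; rw [line_re]; norm_num
  -- continuity of the logarithmic derivative on the line
  have hdZ : Differentiable ℂ (deriv Z) := by
    have h1 := hB.diff.differentiableOn.deriv isOpen_univ
    rwa [differentiableOn_univ] at h1
  have hcont : Continuous (fun t : ℝ => -logDeriv Z (((2 : ℝ) : ℂ) + t * Complex.I)) := by
    have h1 : Continuous (fun t : ℝ => deriv Z (((2 : ℝ) : ℂ) + t * Complex.I)) :=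
      hdZ.continuous.comp (by fun_prop)
    have h2 : Continuous (fun t : ℝ => Z (((2 : ℝ) : ℂ) + t * Complex.I)) :=
      hB.diff.continuous.comp (by fun_prop)
    have h3 := (h1.div h2 (fun t => e6_ne hB (hs1 t))).neg
    exact h3
  set J : ℝ → ℂ := fun t => KK lam (((2 : ℝ) : ℂ) + t * Complex.I) *
      (-logDeriv Z (((2 : ℝ) : ℂ) + t * Complex.I)) * Complex.exp ((((2 : ℝ) : ℂ) + t * Complex.I) * u)
    with hJ
  have iJ : Integrable J := by
    have hA := A_integrable hK hl hl1 2 (by norm_num) le_rfl u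
    have h1 := hA.mul_bdd (c := C * (Real.log (T + 2)) ^ 2)
      (g := fun t : ℝ => -logDeriv Z (((2 : ℝ) : ℂ) + t * Complex.I)) hcont.aestronglyMeasurable
      (Filter.Eventually.of_forall fun t => by
        rw [norm_neg]
        have := hG2 t
        simpa using this)
    refine h1.congr (Filter.Eventually.of_forall fun t => ?_)
    simp only [hJ]
    ring
  refine ⟨iJ, ?_⟩
  have hmem : ∀ ρ ∈ M, ρ.re < 2 := fun ρ hρ => by linarith [(hB.mem ρ hρ).2.2.1]
  obtain ⟨ip, ep⟩ := polar_sum hK hl hl1 u hu M hmem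
  obtain ⟨i1, e1⟩ := polar hK hl hl1 u hu 1 (by simp)
  have es := series hK hl hl1 u
  have hdecomp : ∀ t : ℝ, KK lam ((2 : ℝ) + t * Complex.I) *
      LSeries (fun n => (ArithmeticFunction.vonMangoldt n : ℂ)) ((2 : ℝ) + t * Complex.I) *
      Complex.exp (((2 : ℝ) + t * Complex.I) * u) = J t +
      KK lam ((2 : ℝ) + t * Complex.I) * (1 / (((2 : ℝ) + t * Complex.I) - 1)) *
      Complex.exp (((2 : ℝ) + t * Complex.I) * u) -
      KK lam ((2 : ℝ) + t * Complex.I) * (M.map (fun ρ => 1 / (((2 : ℝ) + t * Complex.I) - ρ))).sum *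
      Complex.exp (((2 : ℝ) + t * Complex.I) * u) := by
    intro t
    have := e6_logDeriv hB (hs1 t)
    simp only [hJ]
    rw [this]
    ring
  simp only [hdecomp] at es
  rw [integral3 iJ i1 ip, ep, e1] at es
  have hfin : ∫ t : ℝ, J t = 2 * Real.pi * lhs (tri lam) 1 lam M u := by
    unfold lhs
    simp only [pow_one]
    rw [one_mul] at es
    linear_combination es
  have hpc : (Real.pi : ℂ) ≠ 0 := by exact_mod_cast Real.pi_pos.ne'
  rw [show (∫ t : ℝ, KK lam ((2 : ℝ) + t * Complex.I) *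
      (-logDeriv Z ((2 : ℝ) + t * Complex.I)) * Complex.exp (((2 : ℝ) + t * Complex.I) * u)) =
      ∫ t : ℝ, J t from rfl, hfin,
    ← mul_assoc, one_div, inv_mul_cancel₀ (by simp), one_mul]

end Pool.Agent.Helper48.KSZ
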