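import Pool.Agent.Helper18.KSZ.NSpec

/-!
# KSZ-N7: detection of zeros
-/

set_option autoImplicit false

open Finset

namespace Pool.Agent.Helper48.KSZ

open Pool.Agent.Helper18.KSZ

theorem n7_swap (f : ℕ → ℕ → ℂ) (N : ℕ) :
    ∑ n ∈ Icc 1 N, ∑ d ∈ n.divisors, f d (n / d) =
      ∑ d ∈ Icc 1 N, ∑ m ∈ Icc 1 (N / d), f d m := by
  rw [Finset.sum_sigma', Finset.sum_sigma']
  refine Finset.sum_nbij' (fun p => ⟨p.2, p.1 / p.2⟩) (fun p => ⟨p.1 * p.2, p.1⟩) ?_ ?_ ?_ ?_ ?_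
  · rintro ⟨n, d⟩ h
    simp only [mem_sigma, mem_Icc, Nat.mem_divisors] at h ⊢
    obtain ⟨⟨h1, h2⟩, h3, h4⟩ := h
    have hd : 0 < d := Nat.pos_of_dvd_of_pos h3 h1
    have hdn : d ≤ n := Nat.le_of_dvd h1 h3
    refine ⟨⟨hd, hdn.trans h2⟩, Nat.div_pos hdn hd, Nat.div_le_div_right h2⟩
  · rintro ⟨d, m⟩ h
    simp only [mem_sigma, mem_Icc, Nat.mem_divisors] at h ⊢
    obtain ⟨⟨h1, h2⟩, h3, h4⟩ := h
    have h5 : d * m ≤ N := by
      calc d * m ≤ d * (N / d) := Nat.mul_le_mul_left d h4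
        _ ≤ N := Nat.mul_div_le N d
    have h6 : 0 < d * m := Nat.mul_pos h1 h3
    exact ⟨⟨h6, h5⟩, Dvd.intro m rfl, h6.ne'⟩
  · rintro ⟨n, d⟩ h
    simp only [mem_sigma, mem_Icc, Nat.mem_divisors] at h
    obtain ⟨⟨h1, h2⟩, h3, h4⟩ := h
    simp only
    rw [Nat.mul_div_cancel' h3]
  · rintro ⟨d, m⟩ h
    simp only [mem_sigma, mem_Icc] at h
    obtain ⟨⟨h1, h2⟩, h3, h4⟩ := h
    simp only
    rw [Nat.mul_div_cancel_left m (by omega)]
  · rintro ⟨n, d⟩ h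
    rfl

/-- harmonic type bound -/
theorem n7_harm (N : ℕ) (ε : ℝ) (hε : 0 ≤ ε) (σ : ℝ) (hσ : 1 - ε ≤ σ) (hN : 1 ≤ N) :
    ∑ d ∈ Icc 1 N, (d : ℝ) ^ (-σ) ≤ (N : ℝ) ^ ε * (1 + Real.log N) := by
  have h1 : ∀ d ∈ Icc 1 N, (d : ℝ) ^ (-σ) ≤ (N : ℝ) ^ ε * (d : ℝ)⁻¹ := by
    intro d hd
    rw [mem_Icc] at hd
    have hd1 : (1 : ℝ) ≤ (d : ℝ) := by exact_mod_cast hd.1
    have hd0 : (0 : ℝ) < (d : ℝ) := by linarith
    have hdN : (d : ℝ) ≤ (N : ℝ) := by exact_mod_cast hd.2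
    calc (d : ℝ) ^ (-σ) ≤ (d : ℝ) ^ (ε + (-1)) :=
          Real.rpow_le_rpow_of_exponent_le hd1 (by linarith)
      _ = (d : ℝ) ^ ε * (d : ℝ)⁻¹ := by
          rw [Real.rpow_add hd0, Real.rpow_neg_one]
      _ ≤ (N : ℝ) ^ ε * (d : ℝ)⁻¹ := by
          apply mul_le_mul_of_nonneg_right
          · exact Real.rpow_le_rpow hd0.le hdN hε
          · positivity
  calc ∑ d ∈ Icc 1 N, (d : ℝ) ^ (-σ) ≤ ∑ d ∈ Icc 1 N, (N : ℝ) ^ ε * (d : ℝ)⁻¹ :=
        Finset.sum_le_sum h1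
    _ = (N : ℝ) ^ ε * ∑ d ∈ Icc 1 N, (d : ℝ)⁻¹ := by rw [Finset.mul_sum]
    _ ≤ (N : ℝ) ^ ε * (1 + Real.log N) := by
        apply mul_le_mul_of_nonneg_left _ (by positivity)
        have := harmonic_le_one_add_log N
        rw [harmonic_eq_sum_Icc] at this
        push_cast at this
        exact this

/-- N7 -/
theorem detect (h2 : Coeffs) (h6 : ZeroSum) : Detect := by
  intro K C hK hC
  obtain ⟨c, ε6, X6, hc, hε6, hZ⟩ := h6
  have hlim : ∀ᶠ X : ℝ in Filter.atTop,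
      X ^ ((6 / 100 : ℝ) * c) * (1 + Real.log X) * X ^ (-c) ≤ 1 / 8 := by
    have h : Filter.Tendsto (fun X : ℝ => (1 + Real.log X) * X ^ (-((94 / 100 : ℝ) * c)))
        Filter.atTop (nhds 0) := by
      have ha : Filter.Tendsto (fun X : ℝ => X ^ (-((94 / 100 : ℝ) * c))) Filter.atTop (nhds 0) :=
        tendsto_rpow_neg_atTop (by positivity)
      have hb : Filter.Tendsto (fun X : ℝ => Real.log X * X ^ (-((94 / 100 : ℝ) * c)))
          Filter.atTop (nhds 0) := by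
        have hb1 := (isLittleO_log_rpow_atTop (r := (94 / 100 : ℝ) * c) (by positivity)).tendsto_div_nhds_zero
        refine hb1.congr' ?_
        filter_upwards [Filter.eventually_gt_atTop 0] with X hX
        rw [Real.rpow_neg hX.le, div_eq_mul_inv]
      have := ha.add hb
      rw [add_zero] at this
      refine this.congr (fun X => ?_)
      ring
    have h' := h.eventually (eventually_le_nhds (show (0 : ℝ) < 1 / 8 by norm_num))
    filter_upwards [h', Filter.eventually_gt_atTop 0] with X hX hX0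
    calc X ^ ((6 / 100 : ℝ) * c) * (1 + Real.log X) * X ^ (-c)
        = (1 + Real.log X) * (X ^ ((6 / 100 : ℝ) * c) * X ^ (-c)) := by ring
      _ = (1 + Real.log X) * X ^ (-((94 / 100 : ℝ) * c)) := by
          rw [← Real.rpow_add hX0]; congr 2; ring
      _ ≤ 1 / 8 := hX
  have hlim2 : ∀ᶠ X : ℝ in Filter.atTop, X ^ (1 / 10 : ℝ) + 2 ≤ X ^ (14 / 100 : ℝ) := by
    have h : Filter.Tendsto (fun X : ℝ => X ^ (4 / 100 : ℝ)) Filter.atTop Filter.atTop :=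
      tendsto_rpow_atTop (by norm_num)
    filter_upwards [h.eventually (Filter.eventually_ge_atTop 3),
      Filter.eventually_ge_atTop 1] with X hX hX1
    have hX0 : 0 < X := by linarith
    have h1 : (1 : ℝ) ≤ X ^ (1 / 10 : ℝ) := Real.one_le_rpow hX1 (by norm_num)
    have h3 : X ^ (14 / 100 : ℝ) = X ^ (1 / 10 : ℝ) * X ^ (4 / 100 : ℝ) := by
      rw [← Real.rpow_add hX0]; norm_num
    rw [h3]
    nlinarith
  obtain ⟨X1, hX1⟩ := Filter.eventually_atTop.1 hlim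
  obtain ⟨X2, hX2⟩ := Filter.eventually_atTop.1 hlim2
  refine ⟨min ε6 c, max (max X1 X2) (max X6 2), lt_min hε6 hc, ?_⟩
  intro X hX w lam hw hwK hSW ρ hρ0 hρre hwρ him1 him2
  have hXX1 : X1 ≤ X := le_trans (le_trans (le_max_left _ _) (le_max_left _ _)) hX
  have hXX2 : X2 ≤ X := le_trans (le_trans (le_max_right _ _) (le_max_left _ _)) hX
  have hXX6 : X6 ≤ X := le_trans (le_trans (le_max_left _ _) (le_max_right _ _)) hX
  have hX2' : (2 : ℝ) ≤ X := le_trans (le_trans (le_max_right _ _) (le_max_right _ _)) hX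
  have hX0 : (0 : ℝ) < X := by linarith
  have hX1' : (1 : ℝ) ≤ X := by linarith
  have hb1 := hX1 X hXX1
  have hb2 := hX2 X hXX2
  set D : ℝ := X ^ (1 / 20 : ℝ) with hD
  set Y : ℝ := X ^ (1 / 5 : ℝ) with hY
  have hD1 : (1 : ℝ) ≤ D := Real.one_le_rpow hX1' (by norm_num)
  have hDY : D ≤ Y := Real.rpow_le_rpow_of_exponent_le hX1' (by norm_num)
  have hY1 : (1 : ℝ) ≤ Y := hD1.trans hDY
  obtain ⟨hc1, hcabs, hcsupp, hcsum, hcalp, -⟩ := h2 K C w lam hw hSW D hD1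
  have hre1 : ρ.re < 1 := by
    by_contra hcon
    exact riemannZeta_ne_zero_of_one_le_re (not_lt.1 hcon) hρ0
  set N : ℕ := ⌊Y⌋₊ with hN
  set N0 : ℕ := ⌊D⌋₊ with hN0
  have hN01 : 1 ≤ N0 := Nat.one_le_floor_iff _ |>.2 hD1
  have hN0N : N0 ≤ N := Nat.floor_le_floor hDY
  -- the total sum
  have htot : ∑ n ∈ Icc 1 N, ((bet lam n * alp w D n : ℝ) : ℂ) * (n : ℂ) ^ (-ρ) =
      ∑ d ∈ Icc 1 N, (cc lam w D d : ℂ) * (d : ℂ) ^ (-ρ) *
        ∑ m ∈ Icc 1 (N / d), (m : ℂ) ^ (-ρ) := by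
    have h1 : ∀ n ∈ Icc 1 N, ((bet lam n * alp w D n : ℝ) : ℂ) * (n : ℂ) ^ (-ρ) =
        ∑ d ∈ n.divisors, (fun (a b : ℕ) => (cc lam w D a : ℂ) * (a : ℂ) ^ (-ρ) *
          (b : ℂ) ^ (-ρ)) d (n / d) := by
      intro n hn
      rw [mem_Icc] at hn
      rw [← hcsum n (by omega)]
      push_cast
      rw [Finset.sum_mul]
      refine Finset.sum_congr rfl (fun d hd => ?_)
      have hdn : d ∣ n := Nat.dvd_of_mem_divisors hd
      have : (n : ℂ) = (d : ℂ) * ((n / d : ℕ) : ℂ) := by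
        rw [← Nat.cast_mul, Nat.mul_div_cancel' hdn]
      rw [mul_assoc]
      congr 1
      conv_lhs => rw [this]
      rw [Complex.natCast_mul_natCast_cpow]
    rw [Finset.sum_congr rfl h1, n7_swap (fun (a b : ℕ) => (cc lam w D a : ℂ) * (a : ℂ) ^ (-ρ) *
          (b : ℂ) ^ (-ρ)) N]
    refine Finset.sum_congr rfl (fun d hd => ?_)
    rw [Finset.mul_sum]
  have hbnd : ‖∑ n ∈ Icc 1 N, ((bet lam n * alp w D n : ℝ) : ℂ) * (n : ℂ) ^ (-ρ)‖ ≤ 1 / 8 := by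
    rw [htot]
    set Q : ℝ := X ^ (6 / 100 : ℝ) with hQ
    have hQ1 : (1 : ℝ) ≤ Q := Real.one_le_rpow hX1' (by norm_num)
    have hwKD : w ^ K * D ≤ Q := by
      calc w ^ K * D ≤ X ^ (1 / 100 : ℝ) * X ^ (1 / 20 : ℝ) :=
            mul_le_mul_of_nonneg_right hwK (by positivity)
        _ = Q := by rw [← Real.rpow_add hX0]; norm_num [hQ]
    have hterm : ∀ d ∈ Icc 1 N, ‖(cc lam w D d : ℂ) * (d : ℂ) ^ (-ρ) *
        ∑ m ∈ Icc 1 (N / d), (m : ℂ) ^ (-ρ)‖ ≤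
        if d ≤ ⌊Q⌋₊ then (d : ℝ) ^ (-ρ.re) * X ^ (-c) else 0 := by
      intro d hd
      rw [mem_Icc] at hd
      by_cases hcd : cc lam w D d = 0
      · rw [hcd]
        simp only [Complex.ofReal_zero, zero_mul, norm_zero]
        split_ifs
        · positivity
        · exact le_rfl
      · obtain ⟨hd0, hdle⟩ := hcsupp d hcd
        have hdQ : (d : ℝ) ≤ Q := hdle.trans hwKD
        rw [if_pos (Nat.le_floor hdQ)]
        have hd0' : (0 : ℝ) < (d : ℝ) := by exact_mod_cast hd0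
        have hdY : (d : ℝ) ≤ Y := hdQ.trans (Real.rpow_le_rpow_of_exponent_le hX1' (by norm_num))
        have hNd : X ^ (1 / 10 : ℝ) ≤ ((N / d : ℕ) : ℝ) := by
          have h1 : Y - 1 < (N : ℝ) := by
            have := Nat.lt_floor_add_one Y
            rw [← hN] at this
            linarith
          have h2 : (N : ℝ) < (d : ℝ) * (((N / d : ℕ) : ℝ) + 1) := by
            have := Nat.lt_mul_div_succ N hd0
            exact_mod_cast this
          have h3 : Y = X ^ (14 / 100 : ℝ) * Q := by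
            rw [hY, hQ, ← Real.rpow_add hX0]; norm_num
          have h4 : X ^ (14 / 100 : ℝ) * Q - 1 < Q * (((N / d : ℕ) : ℝ) + 1) := by
            calc X ^ (14 / 100 : ℝ) * Q - 1 = Y - 1 := by rw [h3]
              _ < (N : ℝ) := h1
              _ < (d : ℝ) * (((N / d : ℕ) : ℝ) + 1) := h2
              _ ≤ Q * (((N / d : ℕ) : ℝ) + 1) :=
                  mul_le_mul_of_nonneg_right hdQ (by positivity)
          have hQ0 : 0 < Q := by linarith
          have h5 : X ^ (14 / 100 : ℝ) * Q - Q ≤ Q * (((N / d : ℕ) : ℝ) + 1) := by linarith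
          have h6' : X ^ (14 / 100 : ℝ) - 1 ≤ (((N / d : ℕ) : ℝ) + 1) := by
            have : Q * (X ^ (14 / 100 : ℝ) - 1) ≤ Q * (((N / d : ℕ) : ℝ) + 1) := by
              calc Q * (X ^ (14 / 100 : ℝ) - 1) = X ^ (14 / 100 : ℝ) * Q - Q := by ring
                _ ≤ _ := h5
            exact le_of_mul_le_mul_left this hQ0
          linarith
        have hNX : ((N / d : ℕ) : ℝ) ≤ X := by
          calc ((N / d : ℕ) : ℝ) ≤ (N : ℝ) := by exact_mod_cast Nat.div_le_self N d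
            _ ≤ Y := Nat.floor_le (by positivity)
            _ ≤ X ^ (1 : ℝ) := Real.rpow_le_rpow_of_exponent_le hX1' (by norm_num)
            _ = X := Real.rpow_one X
        have hin := hZ X hXX6 ρ hρ0 (by have := min_le_left ε6 c; linarith) him1 him2 (N / d) hNd hNX
        rw [norm_mul, norm_mul, Complex.norm_real, Real.norm_eq_abs]
        have hn : ‖(d : ℂ) ^ (-ρ)‖ = (d : ℝ) ^ (-ρ.re) := by
          rw [Complex.norm_natCast_cpow_of_pos hd0, Complex.neg_re]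
        rw [hn]
        calc |cc lam w D d| * (d : ℝ) ^ (-ρ.re) * ‖∑ m ∈ Icc 1 (N / d), (m : ℂ) ^ (-ρ)‖
            ≤ 1 * (d : ℝ) ^ (-ρ.re) * X ^ (-c) := by
              apply mul_le_mul _ hin (norm_nonneg _) (by positivity)
              exact mul_le_mul_of_nonneg_right (hcabs d) (by positivity)
          _ = _ := by ring
    have hQfl : 1 ≤ ⌊Q⌋₊ := Nat.one_le_floor_iff _ |>.2 hQ1
    calc ‖∑ d ∈ Icc 1 N, (cc lam w D d : ℂ) * (d : ℂ) ^ (-ρ) *
          ∑ m ∈ Icc 1 (N / d), (m : ℂ) ^ (-ρ)‖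
        ≤ ∑ d ∈ Icc 1 N, (if d ≤ ⌊Q⌋₊ then (d : ℝ) ^ (-ρ.re) * X ^ (-c) else 0) :=
          norm_sum_le_of_le _ hterm
      _ = ∑ d ∈ (Icc 1 N).filter (fun d => d ≤ ⌊Q⌋₊), (d : ℝ) ^ (-ρ.re) * X ^ (-c) := by
          rw [Finset.sum_filter]
      _ ≤ ∑ d ∈ Icc 1 ⌊Q⌋₊, (d : ℝ) ^ (-ρ.re) * X ^ (-c) := by
          apply Finset.sum_le_sum_of_subset_of_nonneg
          · intro d hd
            rw [mem_filter, mem_Icc] at hd
            rw [mem_Icc]
            exact ⟨hd.1.1, hd.2⟩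
          · intro d _ _
            positivity
      _ = (∑ d ∈ Icc 1 ⌊Q⌋₊, (d : ℝ) ^ (-ρ.re)) * X ^ (-c) := by rw [Finset.sum_mul]
      _ ≤ (((⌊Q⌋₊ : ℕ) : ℝ) ^ c * (1 + Real.log ((⌊Q⌋₊ : ℕ) : ℝ))) * X ^ (-c) := by
          apply mul_le_mul_of_nonneg_right _ (by positivity)
          apply n7_harm _ c hc.le
          · have := min_le_right ε6 c; linarith
          · exact hQfl
      _ ≤ (X ^ ((6 / 100 : ℝ) * c) * (1 + Real.log X)) * X ^ (-c) := by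
          apply mul_le_mul_of_nonneg_right _ (by positivity)
          have hfl : ((⌊Q⌋₊ : ℕ) : ℝ) ≤ Q := Nat.floor_le (by positivity)
          have hfl1 : (1 : ℝ) ≤ ((⌊Q⌋₊ : ℕ) : ℝ) := by exact_mod_cast hQfl
          have hQX : Q ≤ X := by
            calc Q ≤ X ^ (1 : ℝ) := Real.rpow_le_rpow_of_exponent_le hX1' (by norm_num)
              _ = X := Real.rpow_one X
          have hlog : Real.log ((⌊Q⌋₊ : ℕ) : ℝ) ≤ Real.log X :=
            Real.log_le_log (by linarith) (hfl.trans hQX)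
          have hlog0 : 0 ≤ Real.log ((⌊Q⌋₊ : ℕ) : ℝ) := Real.log_nonneg hfl1
          apply mul_le_mul _ (by linarith) (by linarith) (by positivity)
          calc ((⌊Q⌋₊ : ℕ) : ℝ) ^ c ≤ Q ^ c := Real.rpow_le_rpow (by positivity) hfl hc.le
            _ = X ^ ((6 / 100 : ℝ) * c) := by rw [hQ, ← Real.rpow_mul hX0.le]
      _ ≤ 1 / 8 := hb1
  -- splitting
  have hsplit : ∑ n ∈ Icc 1 N, ((bet lam n * alp w D n : ℝ) : ℂ) * (n : ℂ) ^ (-ρ) =
      (1 + ∑ n ∈ Ioc 1 N0, ((bet lam n * alp w D n : ℝ) : ℂ) * (n : ℂ) ^ (-ρ)) +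
      ∑ n ∈ Ioc N0 N, ((bet lam n * alp w D n : ℝ) : ℂ) * (n : ℂ) ^ (-ρ) := by
    have e1 : Icc 1 N = insert 1 (Ioc 1 N) := by
      ext n; simp only [mem_Icc, mem_insert, mem_Ioc]; omega
    have e2 : Ioc 1 N = Ioc 1 N0 ∪ Ioc N0 N := by
      ext n; simp only [mem_union, mem_Ioc]; omega
    have hdj : Disjoint (Ioc 1 N0) (Ioc N0 N) := by
      rw [Finset.disjoint_left]
      intro n hn hn'
      rw [mem_Ioc] at hn hn'
      omega
    have h11 : bet lam 1 * alp w D 1 = 1 := by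
      rw [← hcsum 1 one_pos, Nat.divisors_one, Finset.sum_singleton, hc1]
    rw [e1, Finset.sum_insert (by simp), e2, Finset.sum_union hdj, h11]
    simp [add_assoc]
  have hmid : ‖∑ n ∈ Ioc 1 N0, ((bet lam n * alp w D n : ℝ) : ℂ) * (n : ℂ) ^ (-ρ)‖ ≤ 1 / 8 := by
    classical
    have hterm : ∀ n ∈ Ioc 1 N0, ‖((bet lam n * alp w D n : ℝ) : ℂ) * (n : ℂ) ^ (-ρ)‖ ≤
        if smooth w n then bet lam n * (n : ℝ) ^ ((1 - ρ.re) - 1) else 0 := by
      intro n hn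
      rw [mem_Ioc] at hn
      have hn0 : 0 < n := by omega
      have hnD : (n : ℝ) ≤ D := by
        calc (n : ℝ) ≤ (N0 : ℝ) := by exact_mod_cast hn.2
          _ ≤ D := Nat.floor_le (by positivity)
      rw [hcalp n hn0 hnD]
      split_ifs with hs
      · rw [mul_one, norm_mul, Complex.norm_real, Real.norm_eq_abs,
          abs_of_nonneg (hSW.nonneg n hn0), Complex.norm_natCast_cpow_of_pos hn0, Complex.neg_re]
        rw [show (1 - ρ.re) - 1 = -ρ.re by ring]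
      · simp
    calc ‖∑ n ∈ Ioc 1 N0, ((bet lam n * alp w D n : ℝ) : ℂ) * (n : ℂ) ^ (-ρ)‖
        ≤ ∑ n ∈ Ioc 1 N0, (if smooth w n then bet lam n * (n : ℝ) ^ ((1 - ρ.re) - 1) else 0) :=
          norm_sum_le_of_le _ hterm
      _ = ∑ n ∈ (Ioc 1 N0).filter (smooth w), bet lam n * (n : ℝ) ^ ((1 - ρ.re) - 1) := by
          rw [Finset.sum_filter]
      _ ≤ 1 / 8 := by
          apply hSW.small (1 - ρ.re) (by linarith) hwρ
          intro n hn
          rw [mem_filter, mem_Ioc] at hn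
          exact ⟨hn.1.1, hn.2⟩
  rw [hsplit] at hbnd
  set A := ∑ n ∈ Ioc 1 N0, ((bet lam n * alp w D n : ℝ) : ℂ) * (n : ℂ) ^ (-ρ) with hA
  set B := ∑ n ∈ Ioc N0 N, ((bet lam n * alp w D n : ℝ) : ℂ) * (n : ℂ) ^ (-ρ) with hB
  have h7 : (1 : ℝ) ≤ ‖1 + A + B‖ + ‖A‖ + ‖B‖ := by
    have : (1 : ℂ) = (1 + A + B) - A - B := by ring
    calc (1 : ℝ) = ‖(1 : ℂ)‖ := by simp
      _ = ‖(1 + A + B) - A - B‖ := by rw [← this]
      _ ≤ ‖(1 + A + B) - A‖ + ‖B‖ := norm_sub_le _ _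
      _ ≤ ‖1 + A + B‖ + ‖A‖ + ‖B‖ := by linarith [norm_sub_le (1 + A + B) A]
  linarith

end Pool.Agent.Helper48.KSZ
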